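import Mathlib

/-!
# Products of conjugates of an element and of its inverse
-/

set_option autoImplicit false

namespace Pool.Agent.Q21.RDU

variable {G : Type*} [Group G]

/-- `x` is a product of at most `m` factors, each an `E`-conjugate of `σ` or of `σ⁻¹`. -/
def PC (E : Subgroup G) (σ : G) (m : ℕ) (x : G) : Prop :=
  ∃ L : List G, L.length ≤ m ∧ (∀ y ∈ L, ∃ τ ∈ E, y = τ⁻¹ * σ * τ ∨ y = τ⁻¹ * σ⁻¹ * τ) ∧
    L.prod = x

variable {E : Subgroup G} {σ ξ x y : G} {m m' : ℕ}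

lemma PC.mul (hx : PC E σ m x) (hy : PC E σ m' y) : PC E σ (m + m') (x * y) := by
  obtain ⟨L, h1, h2, h3⟩ := hx
  obtain ⟨L', h1', h2', h3'⟩ := hy
  refine ⟨L ++ L', ?_, ?_, ?_⟩
  · rw [List.length_append]; omega
  · intro z hz
    rcases List.mem_append.1 hz with h | h
    · exact h2 z h
    · exact h2' z h
  · rw [List.prod_append, h3, h3']

lemma PC.one : PC E σ 0 1 := ⟨[], le_refl _, fun y hy => by simp at hy, rfl⟩

lemma PC.mono (hx : PC E σ m x) (h : m ≤ m') : PC E σ m' x := by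
  obtain ⟨L, h1, h2, h3⟩ := hx
  exact ⟨L, h1.trans h, h2, h3⟩

lemma PC.self {τ : G} (hτ : τ ∈ E) : PC E σ 1 (τ * σ * τ⁻¹) :=
  ⟨[τ * σ * τ⁻¹], le_refl _, fun y hy => by
    rw [List.mem_singleton] at hy
    exact ⟨τ⁻¹, E.inv_mem hτ, Or.inl (by rw [hy, inv_inv])⟩, by simp⟩

lemma PC.self_inv {τ : G} (hτ : τ ∈ E) : PC E σ 1 (τ * σ⁻¹ * τ⁻¹) :=
  ⟨[τ * σ⁻¹ * τ⁻¹], le_refl _, fun y hy => by
    rw [List.mem_singleton] at hy
    exact ⟨τ⁻¹, E.inv_mem hτ, Or.inr (by rw [hy, inv_inv])⟩, by simp⟩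

lemma PC.conj (hx : PC E σ m x) {τ : G} (hτ : τ ∈ E) : PC E σ m (τ * x * τ⁻¹) := by
  obtain ⟨L, h1, h2, rfl⟩ := hx
  refine ⟨L.map (MulAut.conj τ), ?_, ?_, ?_⟩
  · rw [List.length_map]; exact h1
  · intro z hz
    obtain ⟨y, hy, rfl⟩ := List.mem_map.1 hz
    obtain ⟨ρ, hρ, h⟩ := h2 y hy
    refine ⟨ρ * τ⁻¹, E.mul_mem hρ (E.inv_mem hτ), ?_⟩
    rcases h with rfl | rfl
    · left; simp only [MulAut.conj_apply]; group
    · right; simp only [MulAut.conj_apply]; group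
  · rw [← map_list_prod]; rfl

lemma PC.inv (hx : PC E σ m x) : PC E σ m x⁻¹ := by
  obtain ⟨L, h1, h2, rfl⟩ := hx
  refine ⟨(L.map (fun y => y⁻¹)).reverse, ?_, ?_, ?_⟩
  · rw [List.length_reverse, List.length_map]; exact h1
  · intro z hz
    rw [List.mem_reverse] at hz
    obtain ⟨y, hy, rfl⟩ := List.mem_map.1 hz
    obtain ⟨ρ, hρ, h⟩ := h2 y hy
    refine ⟨ρ, hρ, ?_⟩
    rcases h with rfl | rfl
    · right; group
    · left; group
  · rw [List.prod_inv_reverse]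

lemma PC.trans (hξ : PC E σ m ξ) (hx : PC E ξ m' x) : PC E σ (m' * m) x := by
  obtain ⟨L, h1, h2, rfl⟩ := hx
  have key : ∀ L : List G, (∀ y ∈ L, ∃ τ ∈ E, y = τ⁻¹ * ξ * τ ∨ y = τ⁻¹ * ξ⁻¹ * τ) →
      PC E σ (L.length * m) L.prod := by
    intro L
    induction L with
    | nil => intro _; simpa using PC.one
    | cons y L ih =>
      intro h
      have hy := h y (List.mem_cons_self)
      have hL := ih fun z hz => h z (List.mem_cons_of_mem _ hz)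
      rw [List.prod_cons, List.length_cons, Nat.succ_mul, add_comm]
      refine PC.mul ?_ hL
      obtain ⟨τ, hτ, h | h⟩ := hy
      · have := hξ.conj (E.inv_mem hτ)
        rw [inv_inv] at this
        rw [h]; exact this
      · have := hξ.inv.conj (E.inv_mem hτ)
        rw [inv_inv] at this
        rw [h]; exact this
  exact (key L h2).mono (Nat.mul_le_mul_right m h1)

lemma PC.of_conj {τ : G} (hτ : τ ∈ E) (hx : PC E (τ * σ * τ⁻¹) m x) : PC E σ m x := by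
  have := PC.trans (PC.self (E := E) (σ := σ) hτ) hx
  simpa using this

/-- The commutator `g k g⁻¹ k⁻¹` is a product of four conjugates if `k` commutes with `σ g σ⁻¹`. -/
lemma PC.four {g k : G} (hg : g ∈ E) (hk : k ∈ E) (h : k * (σ * g * σ⁻¹) = σ * g * σ⁻¹ * k) :
    PC E σ 4 (g * k * g⁻¹ * k⁻¹) := by
  have h1 : PC E σ 2 (g * σ * g⁻¹ * σ⁻¹) := by
    have := (PC.self (σ := σ) hg).mul (PC.self_inv (σ := σ) (E := E) E.one_mem)
    simpa using this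
  have h2 := h1.mul (h1.inv.conj hk)
  have e : g * σ * g⁻¹ * σ⁻¹ * (k * (g * σ * g⁻¹ * σ⁻¹)⁻¹ * k⁻¹) = g * k * g⁻¹ * k⁻¹ := by
    have e1 : g * σ * g⁻¹ * σ⁻¹ * (k * (g * σ * g⁻¹ * σ⁻¹)⁻¹ * k⁻¹) =
        g * (σ * g⁻¹ * σ⁻¹) * (k * (σ * g * σ⁻¹)) * g⁻¹ * k⁻¹ := by group
    rw [e1, h]
    group
  rw [e] at h2
  exact h2

lemma PC.two {τ : G} (hτ : τ ∈ E) : PC E σ 2 (τ⁻¹ * σ⁻¹ * τ * σ) := by
  have h1 := PC.self_inv (σ := σ) (E.inv_mem hτ)
  have h2 := h1.mul (PC.self (σ := σ) (E := E) E.one_mem)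
  simpa using h2

end Pool.Agent.Q21.RDU
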