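import Mathlib

/-!
# Eight elements are needed over the field with two elements

If `∑_{g ∈ S} g⁻¹ ⊗ g = e_ki ⊗ e_jl` (`i ≠ j`) in `M_3(𝔽₂) ⊗ M_3(𝔽₂)`, then `S` has at least eight
elements.
-/

set_option autoImplicit false

namespace Pool.Agent.Q21.RDU.Two

open Matrix Module

abbrev K := ZMod 2
abbrev M3 := Matrix (Fin 3) (Fin 3) K
abbrev V9 := Fin 3 × Fin 3 → K

/-- a matrix as a vector -/
def vc (X : M3) : V9 := fun p => X p.1 p.2

lemma vc_inj {X Y : M3} (h : vc X = vc Y) : X = Y := by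
  ext a b
  exact congrFun h (a, b)

lemma vc_add (X Y : M3) : vc (X + Y) = vc X + vc Y := rfl
lemma vc_zero : vc 0 = 0 := rfl

lemma add_self (x : M3) : x + x = 0 := by
  ext a b
  exact CharTwo.add_self_eq_zero _

lemma eq_of_add {x y : M3} (h : x + y = 0) : x = y := by
  have h1 : x + y + y = y := by rw [h, zero_add]
  rwa [add_assoc, add_self, add_zero] at h1

/-- the hypothesis -/
def Hyp (S : Finset M3ˣ) (B A : M3) : Prop :=
  ∀ x c d y : Fin 3, ∑ g ∈ S, ((g⁻¹ : M3ˣ) : M3) x c * (g : M3) d y = B x c * A d y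

lemma unit_ne_zero (g : M3ˣ) : (g : M3) ≠ 0 := g.ne_zero

lemma single_not_unit (j l : Fin 3) (g : M3ˣ) : (g : M3) ≠ single j l 1 := by
  intro h
  obtain ⟨r, hr⟩ : ∃ r : Fin 3, r ≠ j := by
    fin_cases j
    · exact ⟨1, by decide⟩
    · exact ⟨0, by decide⟩
    · exact ⟨0, by decide⟩
  have h1 : ((g * g⁻¹ : M3ˣ) : M3) r r = 0 := by
    rw [Units.val_mul, h, single_mul_apply_of_ne (h := hr)]
  rw [mul_inv_cancel, Units.val_one, one_apply_eq] at h1
  exact one_ne_zero h1

lemma card_sub (W : Submodule K V9) : Nat.card W = 2 ^ finrank K W := by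
  rw [Module.natCard_eq_pow_finrank (K := K) (V := W), Nat.card_zmod]

open Classical in
/-- the elements of `S`, zero and `A` are different members of `W` -/
lemma card_le (S : Finset M3ˣ) (j l : Fin 3) (W : Submodule K V9) (hA : vc (single j l 1) ∈ W)
    (hS : ∀ g ∈ S, vc (g : M3) ∈ W) : S.card + 2 ≤ 2 ^ finrank K W := by
  set T : Finset V9 := insert 0 (insert (vc (single j l 1)) (S.image fun g : M3ˣ => vc (g : M3))) with hT
  have hinj : (S.image fun g : M3ˣ => vc (g : M3)).card = S.card :=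
    Finset.card_image_of_injective _ fun g h e => Units.ext (vc_inj e)
  have h1 : vc (single j l 1) ∉ S.image fun g : M3ˣ => vc (g : M3) := by
    intro h
    obtain ⟨g, _, hg⟩ := Finset.mem_image.1 h
    exact single_not_unit j l g (vc_inj hg)
  have h0 : (0 : V9) ∉ insert (vc (single j l 1)) (S.image fun g : M3ˣ => vc (g : M3)) := by
    intro h
    rcases Finset.mem_insert.1 h with h | h
    · have := congrFun h (j, l)
      simp [vc] at this
    · obtain ⟨g, _, hg⟩ := Finset.mem_image.1 h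
      exact unit_ne_zero g (vc_inj hg)
  have hc : T.card = S.card + 2 := by
    rw [hT, Finset.card_insert_of_notMem h0, Finset.card_insert_of_notMem h1, hinj]
  have hTW : (T : Set V9) ⊆ W := by
    intro v hv
    rw [hT] at hv
    rcases Finset.mem_insert.1 (Finset.mem_coe.1 hv) with rfl | hv
    · exact W.zero_mem
    rcases Finset.mem_insert.1 hv with rfl | hv
    · exact hA
    · obtain ⟨g, hg, rfl⟩ := Finset.mem_image.1 hv
      exact hS g hg
  rw [← card_sub, ← hc, ← Nat.card_coe_set_eq (s := (T : Set V9)) |>.trans (Set.ncard_coe_finset T)]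
  exact Nat.card_mono (Set.toFinite _) hTW

/-- the difference of the inverses of `g` and `g + A` -/
lemma inv_add {A : M3} {g g' : M3ˣ} (h : (g' : M3) = g + A) :
    ((g⁻¹ : M3ˣ) : M3) + ((g'⁻¹ : M3ˣ) : M3) = ((g⁻¹ : M3ˣ) : M3) * A * ((g'⁻¹ : M3ˣ) : M3) := by
  have h1 : A = (g : M3) + g' := by rw [h, ← add_assoc, add_self, zero_add]
  rw [h1, mul_add, ← Units.val_mul g⁻¹ g, inv_mul_cancel, Units.val_one, add_mul, one_mul, mul_assoc,
    ← Units.val_mul g' g'⁻¹, mul_inv_cancel, Units.val_one, mul_one, add_comm]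

/-- the final contradiction -/
lemma no_eigen {j l : Fin 3} {g₁ g₁' g₂ h h' : M3ˣ} (e1 : (g₁' : M3) = (g₁ : M3) + (single j l 1 : M3))
    (e2 : (h' : M3) = (h : M3) + (single j l 1 : M3)) (e3 : (h : M3) = g₁ + g₂)
    (hP : ((g₁⁻¹ : M3ˣ) : M3) + ((g₁'⁻¹ : M3ˣ) : M3) + (((h⁻¹ : M3ˣ) : M3) + ((h'⁻¹ : M3ˣ) : M3)) = 0) :
    False := by
  have h1 := eq_of_add hP
  rw [inv_add e1, inv_add e2] at h1
  -- entries
  have h2 : ∀ x y, ((g₁⁻¹ : M3ˣ) : M3) x j * ((g₁'⁻¹ : M3ˣ) : M3) l y =
      ((h⁻¹ : M3ˣ) : M3) x j * ((h'⁻¹ : M3ˣ) : M3) l y := by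
    intro x y
    have h3 := congrFun (congrFun h1 x) y
    have ent : ∀ X Y : M3, (X * (single j l 1 : M3) * Y : M3) x y = X x j * Y l y := by
      intro X Y
      rw [mul_assoc, mul_apply, Finset.sum_eq_single j (fun m _ hm => by
        rw [single_mul_apply_of_ne (h := hm), mul_zero]) (fun h => absurd (Finset.mem_univ _) h),
        single_mul_apply_same, one_mul]
    rw [ent, ent] at h3
    exact h3
  -- a nonzero entry of row `l` of the inverse of `g₁'`
  have h3 : ∃ y, ((g₁'⁻¹ : M3ˣ) : M3) l y ≠ 0 := by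
    by_contra hcon
    push Not at hcon
    have : ((g₁'⁻¹ * g₁' : M3ˣ) : M3) l l = 0 := by
      rw [Units.val_mul, mul_apply]
      exact Finset.sum_eq_zero fun m _ => by rw [hcon m, zero_mul]
    rw [inv_mul_cancel, Units.val_one, one_apply_eq] at this
    exact one_ne_zero this
  obtain ⟨y, hy⟩ := h3
  have hy1 : ((g₁'⁻¹ : M3ˣ) : M3) l y = 1 := (by decide : ∀ t : ZMod 2, t ≠ 0 → t = 1) _ hy
  -- the columns agree
  have h4 : ((h'⁻¹ : M3ˣ) : M3) l y = 1 := by
    by_contra hcon
    have h5 : ((h'⁻¹ : M3ˣ) : M3) l y = 0 := (by decide : ∀ t : ZMod 2, t ≠ 1 → t = 0) _ hcon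
    have h6 : ∀ x, ((g₁⁻¹ : M3ˣ) : M3) x j = 0 := by
      intro x
      have := h2 x y
      rw [hy1, h5, mul_one, mul_zero] at this
      exact this
    have : ((g₁ * g₁⁻¹ : M3ˣ) : M3) j j = 0 := by
      rw [Units.val_mul, mul_apply]
      exact Finset.sum_eq_zero fun m _ => by rw [h6 m, mul_zero]
    rw [mul_inv_cancel, Units.val_one, one_apply_eq] at this
    exact one_ne_zero this
  have h5 : ∀ x, ((g₁⁻¹ : M3ˣ) : M3) x j = ((h⁻¹ : M3ˣ) : M3) x j := by
    intro x
    have := h2 x y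
    rwa [hy1, h4, mul_one, mul_one] at this
  -- multiply by `h = g₁ + g₂`
  have h6 : ∀ x, ((g₂ : M3) * ((h⁻¹ : M3ˣ) : M3)) x j = 0 := by
    intro x
    have a1 : ((h : M3) * ((h⁻¹ : M3ˣ) : M3)) x j = (1 : M3) x j := by
      rw [← Units.val_mul, mul_inv_cancel, Units.val_one]
    have a2 : ((g₁ : M3) * ((h⁻¹ : M3ˣ) : M3)) x j = (1 : M3) x j := by
      rw [mul_apply, Finset.sum_congr rfl fun m _ => by rw [← h5 m], ← mul_apply, ← Units.val_mul,
        mul_inv_cancel, Units.val_one]
    rw [e3, add_mul, Matrix.add_apply, a2] at a1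
    simpa using a1
  have h7 : ((h⁻¹ : M3ˣ) : M3) j j = 0 ∧ ∀ x, ((h⁻¹ : M3ˣ) : M3) x j = 0 := by
    have : ∀ x, ((h⁻¹ : M3ˣ) : M3) x j = 0 := by
      intro x
      have e : ((g₂⁻¹ : M3ˣ) : M3) * ((g₂ : M3) * ((h⁻¹ : M3ˣ) : M3)) = ((h⁻¹ : M3ˣ) : M3) := by
        rw [← mul_assoc, ← Units.val_mul, inv_mul_cancel, Units.val_one, one_mul]
      rw [← e, mul_apply]
      exact Finset.sum_eq_zero fun m _ => by rw [h6 m, mul_zero]
    exact ⟨this j, this⟩
  have : ((h * h⁻¹ : M3ˣ) : M3) j j = 0 := by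
    rw [Units.val_mul, mul_apply]
    exact Finset.sum_eq_zero fun m _ => by rw [h7.2 m, mul_zero]
  rw [mul_inv_cancel, Units.val_one, one_apply_eq] at this
  exact one_ne_zero this

open Classical in
/-- six elements in a space of dimension three are impossible -/
lemma no_six (S : Finset M3ˣ) (j l : Fin 3) (B : M3) (H : Hyp S B (single j l 1))
    (W : Submodule K V9) (hA : vc (single j l 1) ∈ W) (hS : ∀ g ∈ S, vc (g : M3) ∈ W)
    (hW : finrank K W ≤ 3) (h6 : S.card = 6) : False := by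
  set A : M3 := single j l 1 with hAdef
  have hA0 : A ≠ 0 := by
    intro h
    have := congrFun (congrFun h j) l
    simp [hAdef] at this
  -- the elements of `W`
  set T : Finset V9 := insert 0 (insert (vc A) (S.image fun g : M3ˣ => vc (g : M3))) with hT
  have hinj : (S.image fun g : M3ˣ => vc (g : M3)).card = S.card :=
    Finset.card_image_of_injective _ fun g h e => Units.ext (vc_inj e)
  have h1 : vc A ∉ S.image fun g : M3ˣ => vc (g : M3) := by
    intro h
    obtain ⟨g, _, hg⟩ := Finset.mem_image.1 h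
    exact single_not_unit j l g (vc_inj hg)
  have h0 : (0 : V9) ∉ insert (vc A) (S.image fun g : M3ˣ => vc (g : M3)) := by
    intro h
    rcases Finset.mem_insert.1 h with h | h
    · exact hA0 (vc_inj (h.symm.trans vc_zero.symm))
    · obtain ⟨g, _, hg⟩ := Finset.mem_image.1 h
      exact unit_ne_zero g (vc_inj hg)
  have hc : T.card = 8 := by
    rw [hT, Finset.card_insert_of_notMem h0, Finset.card_insert_of_notMem h1, hinj, h6]
  have hTW : (T : Set V9) ⊆ W := by
    intro v hv
    rw [hT] at hv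
    rcases Finset.mem_insert.1 (Finset.mem_coe.1 hv) with rfl | hv
    · exact W.zero_mem
    rcases Finset.mem_insert.1 hv with rfl | hv
    · exact hA
    · obtain ⟨g, hg, rfl⟩ := Finset.mem_image.1 hv
      exact hS g hg
  have hWT : (W : Set V9) = T := by
    symm
    refine Set.eq_of_subset_of_ncard_le hTW ?_ (Set.toFinite _)
    rw [Set.ncard_coe_finset, hc]
    have h2 : (W : Set V9).ncard = 2 ^ finrank K W := by
      rw [← card_sub]; exact (Nat.card_coe_set_eq _).symm
    rw [h2]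
    calc 2 ^ finrank K W ≤ 2 ^ 3 := Nat.pow_le_pow_right (by norm_num) hW
      _ = 8 := by norm_num
  -- a member of `W` that is neither `0` nor `A` comes from `S`
  have mem : ∀ X : M3, vc X ∈ W → X ≠ 0 → X ≠ A → ∃ g ∈ S, (g : M3) = X := by
    intro X hX hX0 hXA
    have h2 : vc X ∈ (T : Set V9) := by rw [← hWT]; exact hX
    rw [hT] at h2
    rcases Finset.mem_insert.1 (Finset.mem_coe.1 h2) with h2 | h2
    · exact absurd (vc_inj (h2.trans vc_zero.symm)) hX0
    rcases Finset.mem_insert.1 h2 with h2 | h2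
    · exact absurd (vc_inj h2) hXA
    · obtain ⟨g, hg, h⟩ := Finset.mem_image.1 h2
      exact ⟨g, hg, vc_inj h⟩
  have memA : ∀ g ∈ S, ∃ g' ∈ S, (g' : M3) = g + A := by
    intro g hg
    refine mem _ (by rw [vc_add]; exact W.add_mem (hS g hg) hA) ?_ ?_
    · intro h
      exact single_not_unit j l g (eq_of_add h)
    · intro h
      have h' : (g : M3) + A = 0 + A := by rw [h, zero_add]
      exact unit_ne_zero g (add_right_cancel h')
  -- choose the elements
  obtain ⟨g₁, hg₁⟩ : S.Nonempty := by rw [← Finset.card_pos]; omega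
  obtain ⟨g₁', hg₁', e1⟩ := memA g₁ hg₁
  obtain ⟨g₂, hg₂, hne⟩ : ∃ g ∈ S, g ∉ ({g₁, g₁'} : Finset M3ˣ) := by
    refine Finset.exists_mem_notMem_of_card_lt_card ?_
    exact lt_of_le_of_lt Finset.card_le_two (by omega)
  rw [Finset.mem_insert, Finset.mem_singleton, not_or] at hne
  obtain ⟨hne1, hne2⟩ := hne
  have hne1 : g₂ ≠ g₁ := hne1
  have hne2 : g₂ ≠ g₁' := hne2
  obtain ⟨g₂', hg₂', e2⟩ := memA g₂ hg₂
  obtain ⟨h, hh, e3⟩ := mem ((g₁ : M3) + g₂) (by
      rw [vc_add]; exact W.add_mem (hS _ hg₁) (hS _ hg₂))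
    (fun h => hne1 (Units.ext (eq_of_add h)).symm)
    (fun h => hne2 (Units.ext (by
      rw [e1, ← h, ← add_assoc, add_self, zero_add])))
  obtain ⟨h', hh', e4⟩ := memA h hh
  -- the six elements are different
  have ne_add : ∀ {x y : M3ˣ}, (y : M3) = x + A → x ≠ y := by
    rintro x y e rfl
    exact hA0 (by simpa using e)
  have d12 : g₁ ≠ g₁' := ne_add e1
  have d34 : g₂ ≠ g₂' := ne_add e2
  have d56 : h ≠ h' := ne_add e4
  have d14 : g₁ ≠ g₂' := fun e => hne2 (Units.ext (by
    have e' : (g₁ : M3) = g₂ + A := by rw [e, e2]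
    rw [e1, e', add_assoc, add_self, add_zero]))
  have d24 : g₁' ≠ g₂' := fun e => hne1 (Units.ext (by
    have e' : (g₁ : M3) + A = g₂ + A := by rw [← e1, ← e2, e]
    exact (add_right_cancel e').symm))
  have d15 : g₁ ≠ h := fun e => unit_ne_zero g₂ (by
    have e' : (g₁ : M3) + 0 = g₁ + g₂ := by rw [← e3, ← e, add_zero]
    exact (add_left_cancel e').symm)
  have d35 : g₂ ≠ h := fun e => unit_ne_zero g₁ (by
    have e' : 0 + (g₂ : M3) = g₁ + g₂ := by rw [← e3, ← e, zero_add]
    exact (add_right_cancel e').symm)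
  have d16 : g₁ ≠ h' := fun e => single_not_unit j l g₂ (by
    have e' : (g₁ : M3) = g₁ + g₂ + A := by rw [← e3, ← e4, ← e]
    have e'' : (g₂ : M3) + A = 0 := by simpa [add_assoc] using e'
    exact eq_of_add e'')
  have d36 : g₂ ≠ h' := fun e => single_not_unit j l g₁ (by
    have e' : (g₂ : M3) = g₂ + (g₁ + A) := by rw [← add_assoc, add_comm (g₂ : M3), ← e3, ← e4, ← e]
    have e'' : (g₁ : M3) + A = 0 := by simpa using e'
    exact eq_of_add e'')
  have d25 : g₁' ≠ h := fun e => single_not_unit j l g₂ (by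
    have e' : (g₁ : M3) + A = g₁ + g₂ := by rw [← e1, e, e3]
    exact (add_left_cancel e').symm)
  have d26 : g₁' ≠ h' := fun e => d15 (Units.ext (by
    have e' : (g₁ : M3) + A = h + A := by rw [← e1, ← e4, e]
    exact add_right_cancel e'))
  have d45 : g₂' ≠ h := fun e => single_not_unit j l g₁ (by
    have e' : (g₂ : M3) + A = g₂ + g₁ := by rw [← e2, e, e3, add_comm]
    exact (add_left_cancel e').symm)
  have d46 : g₂' ≠ h' := fun e => d35 (Units.ext (by
    have e' : (g₂ : M3) + A = h + A := by rw [← e2, ← e4, e]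
    exact add_right_cancel e'))
  have hS6 : S = {g₁, g₁', g₂, g₂', h, h'} := by
    symm
    refine Finset.eq_of_subset_of_card_le ?_ ?_
    · intro x hx
      simp only [Finset.mem_insert, Finset.mem_singleton] at hx
      rcases hx with rfl | rfl | rfl | rfl | rfl | rfl <;> assumption
    · rw [h6, Finset.card_insert_of_notMem, Finset.card_insert_of_notMem,
        Finset.card_insert_of_notMem, Finset.card_insert_of_notMem, Finset.card_insert_of_notMem,
        Finset.card_singleton]
      all_goals simp only [Finset.mem_insert, Finset.mem_singleton, not_or]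
      · exact d56
      · exact ⟨d45, d46⟩
      · exact ⟨d34, d35, d36⟩
      · exact ⟨hne2.symm, d24, d25, d26⟩
      · exact ⟨d12, hne1.symm, d14, d15, d16⟩
  -- the coefficient of `g₁`
  refine no_eigen e1 e4 e3 ?_
  ext x c
  rw [Matrix.zero_apply]
  set P1 : K := ((g₁⁻¹ : M3ˣ) : M3) x c + ((g₁'⁻¹ : M3ˣ) : M3) x c +
    (((h⁻¹ : M3ˣ) : M3) x c + ((h'⁻¹ : M3ˣ) : M3) x c) with hP1
  set P2 : K := ((g₂⁻¹ : M3ˣ) : M3) x c + ((g₂'⁻¹ : M3ˣ) : M3) x c +
    (((h⁻¹ : M3ˣ) : M3) x c + ((h'⁻¹ : M3ˣ) : M3) x c) with hP2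
  set P3 : K := ((g₁'⁻¹ : M3ˣ) : M3) x c + ((g₂'⁻¹ : M3ˣ) : M3) x c +
    ((h'⁻¹ : M3ˣ) : M3) x c - B x c with hP3
  have rel : ∀ d y, P1 * (g₁ : M3) d y + P2 * (g₂ : M3) d y + P3 * A d y = 0 := by
    intro d y
    have h2 := H x c d y
    rw [hS6, Finset.sum_insert, Finset.sum_insert, Finset.sum_insert, Finset.sum_insert,
      Finset.sum_insert, Finset.sum_singleton, e1, e2, e4, e3] at h2
    · simp only [Matrix.add_apply] at h2
      rw [hP1, hP2, hP3]
      linear_combination h2
    all_goals simp only [Finset.mem_insert, Finset.mem_singleton, not_or]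
    · exact d56
    · exact ⟨d45, d46⟩
    · exact ⟨d34, d35, d36⟩
    · exact ⟨hne2.symm, d24, d25, d26⟩
    · exact ⟨d12, hne1.symm, d14, d15, d16⟩
  show P1 = 0
  by_contra hcon
  have hP11 : P1 = 1 := (by decide : ∀ t : ZMod 2, t ≠ 0 → t = 1) _ hcon
  have two : ∀ t : ZMod 2, t = 0 ∨ t = 1 := by decide
  rcases two P2 with h2 | h2 <;> rcases two P3 with h3 | h3
  · refine unit_ne_zero g₁ ?_
    ext d y
    have := rel d y
    rw [hP11, h2, h3] at this
    simpa using this
  · refine single_not_unit j l g₁ (eq_of_add ?_)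
    ext d y
    have := rel d y
    rw [hP11, h2, h3] at this
    simpa using this
  · refine hne1 (Units.ext (eq_of_add (y := (g₂ : M3)) ?_)).symm
    ext d y
    have := rel d y
    rw [hP11, h2, h3] at this
    simpa using this
  · refine d14 (Units.ext (eq_of_add ?_))
    rw [e2]
    ext d y
    have := rel d y
    rw [hP11, h2, h3] at this
    simpa [add_assoc] using this

/-- the span of `A` and the elements of `S` -/
def Wsp (S : Finset M3ˣ) (A : M3) : Submodule K V9 :=
  Submodule.span K (Set.range fun s : Option S => s.elim (vc A) fun g => vc ((g : M3ˣ) : M3))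

lemma mem_Wsp_none (S : Finset M3ˣ) (A : M3) : vc A ∈ Wsp S A :=
  Submodule.subset_span ⟨none, rfl⟩

lemma mem_Wsp_some (S : Finset M3ˣ) (A : M3) {g : M3ˣ} (hg : g ∈ S) : vc (g : M3) ∈ Wsp S A :=
  Submodule.subset_span ⟨some ⟨g, hg⟩, rfl⟩

open Classical in
/-- **The rank inequality.** -/
lemma rank_ineq (S : Finset M3ˣ) (B A : M3) (H : Hyp S B A) :
    finrank K (Wsp (S.image fun g => g⁻¹) B) + finrank K (Wsp S A) ≤ S.card + 1 := by
  let Y : Matrix (Fin 3 × Fin 3) (Option S) K :=
    Matrix.of fun p s => s.elim (B p.1 p.2) fun g => (((g : M3ˣ)⁻¹ : M3ˣ) : M3) p.1 p.2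
  let X : Matrix (Option S) (Fin 3 × Fin 3) K :=
    Matrix.of fun s p => s.elim (A p.1 p.2) fun g => ((g : M3ˣ) : M3) p.1 p.2
  have hYX : Y * X = 0 := by
    ext p q
    rw [mul_apply, Fintype.sum_option, Matrix.zero_apply]
    have h1 : ∑ i : S, Y p (some i) * X (some i) q = B p.1 p.2 * A q.1 q.2 := by
      rw [← H p.1 p.2 q.1 q.2, ← Finset.sum_coe_sort S]
      rfl
    rw [h1]
    exact CharTwo.add_self_eq_zero _
  have h1 := rank_add_rank_le_card_of_mul_eq_zero hYX
  rw [Fintype.card_option, Fintype.card_coe] at h1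
  have h2 : X.rank = finrank K (Wsp S A) := by
    rw [rank_eq_finrank_span_row]
    have e : Submodule.span K (Set.range X.row) = Wsp S A := by
      unfold Wsp
      congr 2
      funext s
      cases s <;> rfl
    rw [e]
  have h3 : Y.rank = finrank K (Wsp (S.image fun g => g⁻¹) B) := by
    rw [rank_eq_finrank_span_cols]
    have e : Submodule.span K (Set.range Y.col) = Wsp (S.image fun g => g⁻¹) B := by
      unfold Wsp
      congr 1
      ext v
      constructor
      · rintro ⟨s, rfl⟩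
        cases s with
        | none => exact ⟨none, rfl⟩
        | some g => exact ⟨some ⟨(g : M3ˣ)⁻¹, Finset.mem_image_of_mem _ g.2⟩, rfl⟩
      · rintro ⟨s, rfl⟩
        cases s with
        | none => exact ⟨none, rfl⟩
        | some g =>
          obtain ⟨g, hg⟩ := g
          obtain ⟨g', hg', rfl⟩ := Finset.mem_image.1 hg
          exact ⟨some ⟨g', hg'⟩, rfl⟩
    rw [e]
  omega

open Classical in
/-- **Eight elements are needed.** -/
theorem low (S : Finset M3ˣ) (i j k l : Fin 3) (hij : i ≠ j)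
    (H : Hyp S (single k i 1) (single j l 1)) : 8 ≤ S.card := by
  by_contra hcon
  push Not at hcon
  -- the number is even
  have hpar : ((S.card : ℕ) : K) = 0 := by
    have h1 : ∀ g : M3ˣ, ∑ c, ((g⁻¹ : M3ˣ) : M3) k c * (g : M3) c k = 1 := by
      intro g
      rw [← mul_apply, ← Units.val_mul, inv_mul_cancel, Units.val_one, one_apply_eq]
    have h2 : ((S.card : ℕ) : K) = ∑ c, (single k i (1 : K)) k c * (single j l (1 : K)) c k := by
      rw [Finset.sum_congr rfl fun c _ => (H k c c k).symm, Finset.sum_comm,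
        Finset.sum_congr rfl fun g _ => h1 g, Finset.sum_const, nsmul_eq_mul, mul_one]
    rw [h2]
    refine Finset.sum_eq_zero fun c _ => ?_
    by_cases hc : c = i
    · subst hc
      rw [single_apply_of_row_ne (Ne.symm hij), mul_zero]
    · rw [single_apply_of_col_ne _ _ (Ne.symm hc), zero_mul]
  have heven : Even S.card := by
    rw [← ZMod.natCast_eq_zero_iff_even]
    exact hpar
  -- the other side
  set S' : Finset M3ˣ := S.image fun g => g⁻¹ with hS'
  have hcard : S'.card = S.card := Finset.card_image_of_injective _ inv_injective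
  have H' : Hyp S' (single j l 1) (single k i 1) := by
    intro x c d y
    rw [hS', Finset.sum_image fun g _ h _ e => inv_injective e]
    simp only [inv_inv]
    rw [mul_comm, ← H d y x c]
    exact Finset.sum_congr rfl fun g _ => mul_comm _ _
  have r1 := rank_ineq S _ _ H
  have c1 := card_le S j l _ (mem_Wsp_none S _) fun g hg => mem_Wsp_some S _ hg
  have c2 := card_le S' k i _ (mem_Wsp_none S' _) fun g hg => mem_Wsp_some S' _ hg
  have n1 : finrank K (Wsp S (single j l 1)) ≤ 3 → S.card ≠ 6 := fun h h6 =>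
    no_six S j l _ H _ (mem_Wsp_none S _) (fun g hg => mem_Wsp_some S _ hg) h h6
  have n2 : finrank K (Wsp S' (single k i 1)) ≤ 3 → S.card ≠ 6 := fun h h6 =>
    no_six S' k i _ H' _ (mem_Wsp_none S' _) (fun g hg => mem_Wsp_some S' _ hg) h (hcard.trans h6)
  rw [hcard] at c2
  rw [← hS'] at r1
  set a := finrank K (Wsp S (single j l 1)) with ha
  set b := finrank K (Wsp S' (single k i 1)) with hb
  have hne : S.card ≠ 0 := by
    intro h0
    have := H k i j l
    rw [Finset.card_eq_zero.1 h0, Finset.sum_empty, single_apply_same, single_apply_same,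
      mul_one] at this
    exact zero_ne_one this
  have p1 : a ≤ 1 → S.card + 2 ≤ 2 := fun h => c1.trans (Nat.pow_le_pow_right (by norm_num) h)
  have p2 : a ≤ 2 → S.card + 2 ≤ 4 := fun h => c1.trans (Nat.pow_le_pow_right (by norm_num) h)
  have p3 : b ≤ 1 → S.card + 2 ≤ 2 := fun h => c2.trans (Nat.pow_le_pow_right (by norm_num) h)
  have p4 : b ≤ 2 → S.card + 2 ≤ 4 := fun h => c2.trans (Nat.pow_le_pow_right (by norm_num) h)
  obtain ⟨t, ht⟩ := heven
  by_cases ha3 : a ≤ 3
  · have := n1 ha3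
    by_cases ha2 : a ≤ 2
    · have := p2 ha2
      by_cases ha1 : a ≤ 1
      · have := p1 ha1; omega
      · by_cases hb1 : b ≤ 1
        · have := p3 hb1; omega
        · omega
    · by_cases hb2 : b ≤ 2
      · have := p4 hb2
        by_cases hb1 : b ≤ 1
        · have := p3 hb1; omega
        · omega
      · omega
  · have hb3 : b ≤ 3 := by omega
    have := n2 hb3
    by_cases hb2 : b ≤ 2
    · have := p4 hb2
      by_cases hb1 : b ≤ 1
      · have := p3 hb1; omega
      · omega
    · omega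

end Pool.Agent.Q21.RDU.Two
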