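import Pool.Agent.Q21.RDU.Up
import Pool.Agent.Q21.RDU.Two

/-!
# The lower bound: a commutative local ring with `2 ^ 10` elements which needs eight factors
-/

set_option autoImplicit false

namespace Pool.Agent.Q21.RDU

open Matrix Two

/-- The commutative local ring `𝔽₂ ⊕ V` with `V` of dimension nine and `V² = 0`. -/
abbrev R₀ : Type := TrivSqZeroExt K V9

lemma sr_R₀ : StableRankOne R₀ := by
  rintro a b ⟨x, y, h⟩
  have two : ∀ t : K, t = 0 ∨ t = 1 := by decide
  have h1 := congrArg TrivSqZeroExt.fst h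
  rw [TrivSqZeroExt.fst_add, TrivSqZeroExt.fst_mul, TrivSqZeroExt.fst_mul, TrivSqZeroExt.fst_one] at h1
  rcases two a.fst with ha | ha
  · have hb : b.fst ≠ 0 := by
      intro hb
      rw [ha, hb, mul_zero, mul_zero, add_zero] at h1
      exact zero_ne_one h1
    refine ⟨1, ?_⟩
    rw [TrivSqZeroExt.isUnit_iff_isUnit_fst, one_mul, TrivSqZeroExt.fst_add, ha, zero_add]
    exact hb.isUnit
  · refine ⟨0, ?_⟩
    rw [TrivSqZeroExt.isUnit_iff_isUnit_fst, zero_mul, add_zero, ha]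
    exact isUnit_one

/-- reduction modulo `V` -/
def FF : Matrix (Fin 3) (Fin 3) R₀ →+* M3 :=
  ((TrivSqZeroExt.fstHom K K V9 : R₀ →ₐ[K] K) : R₀ →+* K).mapMatrix

lemma FF_apply (X : Matrix (Fin 3) (Fin 3) R₀) (a b : Fin 3) : FF X a b = (X a b).fst := rfl

/-- the component of the `V`-part -/
def DD (c : Fin 3 × Fin 3) (X : Matrix (Fin 3) (Fin 3) R₀) : M3 := fun a b => (X a b).snd c

lemma DD_mul (c : Fin 3 × Fin 3) (X Y : Matrix (Fin 3) (Fin 3) R₀) :
    DD c (X * Y) = FF X * DD c Y + DD c X * FF Y := by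
  ext a b
  rw [Matrix.add_apply, mul_apply, mul_apply]
  show ((X * Y) a b).snd c = _
  rw [mul_apply, TrivSqZeroExt.snd_sum, Finset.sum_apply, ← Finset.sum_add_distrib]
  refine Finset.sum_congr rfl fun m _ => ?_
  rw [TrivSqZeroExt.snd_mul, Pi.add_apply]
  rfl

lemma DD_one (c : Fin 3 × Fin 3) : DD c 1 = 0 := by
  ext a b
  show ((1 : Matrix (Fin 3) (Fin 3) R₀) a b).snd c = 0
  by_cases h : a = b
  · subst h
    rw [one_apply_eq, TrivSqZeroExt.snd_one]; rfl
  · rw [one_apply_ne h]; rfl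

/-- the generic matrix with entries in `V` -/
def YY : Matrix (Fin 3) (Fin 3) R₀ := fun a b => TrivSqZeroExt.inr (Pi.single (a, b) 1)

lemma FF_YY : FF YY = 0 := by
  ext a b
  rfl

lemma DD_YY (c : Fin 3 × Fin 3) : DD c YY = single c.1 c.2 1 := by
  ext a b
  show (Pi.single (a, b) (1 : K) : V9) c = _
  rw [single_apply, Pi.single_apply]
  congr 1
  rw [Prod.ext_iff]

lemma YY_sq : YY * YY = 0 := by
  refine Matrix.ext fun a b => ?_
  rw [mul_apply]
  exact Finset.sum_eq_zero (f := fun m => YY a m * YY m b) fun m _ =>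
    TrivSqZeroExt.inr_mul_inr K (Pi.single (a, m) 1 : V9) (Pi.single (m, b) 1 : V9)

/-- the matrix `σ = 1 + Y` -/
def sg : (Matrix (Fin 3) (Fin 3) R₀)ˣ := onePlus YY YY_sq

lemma sg_inv : sg⁻¹ = sg := by
  refine Units.ext ?_
  show (1 : Matrix (Fin 3) (Fin 3) R₀) - YY = 1 + YY
  rw [sub_eq_add_neg]
  congr 1
  refine Matrix.ext fun a b => ?_
  rw [Matrix.neg_apply]
  show -(TrivSqZeroExt.inr (Pi.single (a, b) 1 : V9) : R₀) =
    TrivSqZeroExt.inr (Pi.single (a, b) 1 : V9)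
  rw [← TrivSqZeroExt.inr_neg]
  congr 1
  funext c
  exact CharTwo.neg_eq _

/-- the conjugates of `σ` -/
lemma DD_conj (c : Fin 3 × Fin 3) (τ : (Matrix (Fin 3) (Fin 3) R₀)ˣ) :
    DD c ((τ⁻¹ * sg * τ : (Matrix (Fin 3) (Fin 3) R₀)ˣ) : Matrix (Fin 3) (Fin 3) R₀) =
      (((Units.map (FF : _ →* M3) τ)⁻¹ : M3ˣ) : M3) * single c.1 c.2 1 *
        ((Units.map (FF : _ →* M3) τ : M3ˣ) : M3) := by
  have h1 : FF (sg : Matrix (Fin 3) (Fin 3) R₀) = 1 := by
    show FF (1 + YY) = 1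
    rw [map_add, map_one, FF_YY, add_zero]
  have h2 : DD c (sg : Matrix (Fin 3) (Fin 3) R₀) = single c.1 c.2 1 := by
    rw [← DD_YY]
    ext a b
    show ((1 + YY : Matrix (Fin 3) (Fin 3) R₀) a b).snd c = (YY a b).snd c
    rw [Matrix.add_apply, TrivSqZeroExt.snd_add, Pi.add_apply]
    have := congrFun (congrFun (DD_one c) a) b
    have h3 : ((1 : Matrix (Fin 3) (Fin 3) R₀) a b).snd c = 0 := this
    rw [h3, zero_add]
  have h3 : (((Units.map (FF : _ →* M3) τ)⁻¹ : M3ˣ) : M3) =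
      FF ((τ⁻¹ : (Matrix (Fin 3) (Fin 3) R₀)ˣ) : Matrix (Fin 3) (Fin 3) R₀) := by
    rw [← map_inv]; rfl
  have h4 : ((Units.map (FF : _ →* M3) τ : M3ˣ) : M3) = FF (τ : Matrix (Fin 3) (Fin 3) R₀) := rfl
  have h5 : FF ((τ⁻¹ : (Matrix (Fin 3) (Fin 3) R₀)ˣ) : Matrix (Fin 3) (Fin 3) R₀) *
      DD c (τ : Matrix (Fin 3) (Fin 3) R₀) +
      DD c ((τ⁻¹ : (Matrix (Fin 3) (Fin 3) R₀)ˣ) : Matrix (Fin 3) (Fin 3) R₀) *
      FF (τ : Matrix (Fin 3) (Fin 3) R₀) = 0 := by
    rw [← DD_mul, ← Units.val_mul, inv_mul_cancel, Units.val_one, DD_one]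
  rw [h3, h4, Units.val_mul, Units.val_mul, DD_mul, DD_mul, map_mul, h1, h2, mul_one, mul_one, add_mul,
    ← add_assoc, add_right_comm, h5, zero_add]

lemma DD_list (c : Fin 3 × Fin 3) (L : List (Matrix (Fin 3) (Fin 3) R₀)ˣ)
    (hL : ∀ x ∈ L, FF (x : Matrix (Fin 3) (Fin 3) R₀) = 1) :
    FF ((L.prod : (Matrix (Fin 3) (Fin 3) R₀)ˣ) : Matrix (Fin 3) (Fin 3) R₀) = 1 ∧
    DD c ((L.prod : (Matrix (Fin 3) (Fin 3) R₀)ˣ) : Matrix (Fin 3) (Fin 3) R₀) =
      (L.map fun x : (Matrix (Fin 3) (Fin 3) R₀)ˣ => DD c (x : Matrix (Fin 3) (Fin 3) R₀)).sum := by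
  induction L with
  | nil =>
    rw [List.prod_nil, Units.val_one]
    exact ⟨map_one _, DD_one c⟩
  | cons x L ih =>
    obtain ⟨h1, h2⟩ := ih fun y hy => hL y (List.mem_cons_of_mem _ hy)
    have h3 := hL x List.mem_cons_self
    rw [List.prod_cons, Units.val_mul, List.map_cons, List.sum_cons, DD_mul, map_mul, h1, h3, h2,
      one_mul, mul_one, one_mul]
    exact ⟨rfl, add_comm _ _⟩

open Classical in
/-- the reduction of a list modulo two -/
lemma list_red (L : List M3ˣ) (f : M3ˣ → K) :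
    (L.map f).sum = ∑ g ∈ L.toFinset.filter (fun g => Odd (L.count g)), f g := by
  rw [Finset.sum_list_map_count, Finset.sum_filter]
  refine Finset.sum_congr rfl fun g _ => ?_
  split_ifs with h
  · obtain ⟨t, ht⟩ := h
    rw [ht, add_smul, mul_smul, one_smul, two_smul, CharTwo.add_self_eq_zero, zero_add]
  · rw [Nat.not_odd_iff_even] at h
    obtain ⟨t, ht⟩ := h
    rw [ht, add_smul, CharTwo.add_self_eq_zero]

open Classical in
lemma list_red_card (L : List M3ˣ) :
    (L.toFinset.filter (fun g => Odd (L.count g))).card ≤ L.length := by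
  have h1 : ∑ g ∈ L.toFinset, L.count g = L.length := by
    simp
  rw [← h1, Finset.card_eq_sum_ones]
  calc ∑ g ∈ L.toFinset.filter (fun g => Odd (L.count g)), 1
      ≤ ∑ g ∈ L.toFinset.filter (fun g => Odd (L.count g)), L.count g :=
        Finset.sum_le_sum fun g hg => (Finset.mem_filter.1 hg).2.pos
    _ ≤ ∑ g ∈ L.toFinset, L.count g := Finset.sum_le_sum_of_subset (Finset.filter_subset _ _)

/-- **At least eight factors.** -/
theorem low_R₀ (i j k l : Fin 3) (hij : i ≠ j) (hkl : k ≠ l) (m : ℕ)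
    (h : PC (Elem (Fin 3) R₀) sg m (tv k l hkl ((sg : Matrix (Fin 3) (Fin 3) R₀) i j))) : 8 ≤ m := by
  classical
  obtain ⟨L, hlen, hL, hprod⟩ := h
  have hL' : ∀ y ∈ L, ∃ τ : (Matrix (Fin 3) (Fin 3) R₀)ˣ, y = τ⁻¹ * sg * τ := by
    intro y hy
    obtain ⟨τ, _, h | h⟩ := hL y hy
    · exact ⟨τ, h⟩
    · exact ⟨τ, by rw [h, sg_inv]⟩
  choose! t ht using hL'
  set L' : List M3ˣ := L.map fun y => Units.map (FF : _ →* M3) (t y) with hL'def
  set S : Finset M3ˣ := L'.toFinset.filter (fun g => Odd (L'.count g)) with hS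
  have hF : ∀ x ∈ L, FF (x : Matrix (Fin 3) (Fin 3) R₀) = 1 := by
    intro x hx
    rw [ht x hx, Units.val_mul, Units.val_mul, map_mul, map_mul]
    have h1 : FF (sg : Matrix (Fin 3) (Fin 3) R₀) = 1 := by
      show FF (1 + YY) = 1
      rw [map_add, map_one, FF_YY, add_zero]
    rw [h1, mul_one, ← map_mul, ← Units.val_mul, inv_mul_cancel, Units.val_one, map_one]
  have hH : Hyp S (single k i 1) (single j l 1) := by
    intro x c d y
    rw [hS, ← list_red L' (fun g => ((g⁻¹ : M3ˣ) : M3) x c * (g : M3) d y), hL'def, List.map_map]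
    have h1 := (DD_list (c, d) L hF).2
    rw [hprod] at h1
    have h2 := congrFun (congrFun h1 x) y
    have h3 : ∀ L : List (Matrix (Fin 3) (Fin 3) R₀)ˣ,
        ((L.map fun z : (Matrix (Fin 3) (Fin 3) R₀)ˣ =>
          DD (c, d) (z : Matrix (Fin 3) (Fin 3) R₀)).sum : M3) x y =
        (L.map fun z : (Matrix (Fin 3) (Fin 3) R₀)ˣ =>
          DD (c, d) (z : Matrix (Fin 3) (Fin 3) R₀) x y).sum := by
      intro L
      induction L with
      | nil => rfl
      | cons z L ih => rw [List.map_cons, List.sum_cons, Matrix.add_apply, ih, List.map_cons,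
          List.sum_cons]
    rw [h3 L] at h2
    have h4 : (L.map fun z : (Matrix (Fin 3) (Fin 3) R₀)ˣ =>
          DD (c, d) (z : Matrix (Fin 3) (Fin 3) R₀) x y).sum =
        (L.map ((fun g : M3ˣ => ((g⁻¹ : M3ˣ) : M3) x c * (g : M3) d y) ∘
          fun y => Units.map (FF : _ →* M3) (t y))).sum := by
      congr 1
      refine List.map_congr_left fun z hz => ?_
      show DD (c, d) (z : Matrix (Fin 3) (Fin 3) R₀) x y = _
      conv_lhs => rw [ht z hz]
      rw [DD_conj]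
      have ent : ∀ X Y : M3, (X * (single c d 1 : M3) * Y : M3) x y = X x c * Y d y := by
        intro X Y
        rw [mul_assoc, mul_apply, Finset.sum_eq_single c (fun m _ hm => by
          rw [single_mul_apply_of_ne (h := hm), mul_zero]) (fun h => absurd (Finset.mem_univ _) h),
          single_mul_apply_same, one_mul]
      exact ent _ _
    rw [← h4, ← h2]
    -- the left hand side
    show ((1 + single k l ((1 + YY : Matrix (Fin 3) (Fin 3) R₀) i j) :
      Matrix (Fin 3) (Fin 3) R₀) x y).snd (c, d) = _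
    rw [Matrix.add_apply, TrivSqZeroExt.snd_add, Pi.add_apply, Matrix.add_apply, one_apply_ne hij,
      zero_add]
    have h5 : ((1 : Matrix (Fin 3) (Fin 3) R₀) x y).snd (c, d) = 0 :=
      congrFun (congrFun (DD_one (c, d)) x) y
    rw [h5, zero_add, single_apply, single_apply, single_apply]
    by_cases hx : k = x <;> by_cases hy : l = y
    · rw [if_pos ⟨hx, hy⟩]
      show (Pi.single (i, j) (1 : K) : V9) (c, d) = _
      rw [Pi.single_apply]
      by_cases hc : i = c <;> by_cases hd : j = d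
      · rw [if_pos (by rw [hc, hd]), if_pos ⟨hx, hc⟩, if_pos ⟨hd, hy⟩, mul_one]
      · rw [if_neg (fun h => hd (Prod.ext_iff.1 h).2.symm), if_neg (fun h : j = d ∧ l = y => hd h.1), mul_zero]
      · rw [if_neg (fun h => hc (Prod.ext_iff.1 h).1.symm), if_neg (fun h => hc h.2), zero_mul]
      · rw [if_neg (fun h => hc (Prod.ext_iff.1 h).1.symm), if_neg (fun h => hc h.2), zero_mul]
    · rw [if_neg (fun h => hy h.2), if_neg (fun h : j = d ∧ l = y => hy h.2), mul_zero]; rfl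
    · rw [if_neg (fun h => hx h.1), if_neg (fun h : k = x ∧ i = c => hx h.1), zero_mul]; rfl
    · rw [if_neg (fun h => hx h.1), if_neg (fun h : k = x ∧ i = c => hx h.1), zero_mul]; rfl
  have h8 := low S i j k l hij hH
  have h9 : S.card ≤ L'.length := list_red_card L'
  rw [hL'def, List.length_map] at h9
  omega

end Pool.Agent.Q21.RDU
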