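import Pool.Agent.Q21.RDU.Group

/-!
# Elementary transvections and the basic commutators
-/

set_option autoImplicit false

namespace Pool.Agent.Q21.RDU

open Matrix

variable {n : Type*} [Fintype n] [DecidableEq n] {R : Type*} [Ring R]

/-- the subgroup generated by the elementary transvections `1 + a e_kl`, `k ≠ l` -/
def Elem (n : Type*) [Fintype n] [DecidableEq n] (R : Type*) [Ring R] : Subgroup (Matrix n n R)ˣ :=
  Subgroup.closure {g | ∃ (k l : n) (a : R), k ≠ l ∧ (g : Matrix n n R) = 1 + single k l a}

lemma smz {i j k l : n} (h : j ≠ k) (c d : R) : single i j c * single k l d = 0 := by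
  simp [h]

lemma comm_of {A : Type*} [Ring A] {x y : A} (h1 : x * y = 0) (h2 : y * x = 0) :
    (1 + x) * (1 + y) = (1 + y) * (1 + x) := by
  have e1 : (1 + x) * (1 + y) = 1 + x + y + x * y := by noncomm_ring
  have e2 : (1 + y) * (1 + x) = 1 + x + y + y * x := by noncomm_ring
  rw [e1, e2, h1, h2]

lemma comm_four {A : Type*} [Ring A] {a b c : A} (hba : b * a = 0) (hab : a * b = c)
    (hca : c * a = 0) (hcb : c * b = 0) : (1 + a) * (1 + b) = (1 + c) * (1 + b) * (1 + a) := by
  have e1 : (1 + a) * (1 + b) = 1 + a + b + a * b := by noncomm_ring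
  have e2 : (1 + c) * (1 + b) * (1 + a) = 1 + a + b + c + b * a + c * a + c * b + c * (b * a) := by
    noncomm_ring
  rw [e1, e2, hba, hab, hca, hcb]
  noncomm_ring

/-- `1 + B` for `B² = 0` -/
def onePlus {A : Type*} [Ring A] (B : A) (h : B * B = 0) : Aˣ where
  val := 1 + B
  inv := 1 - B
  val_inv := by
    rw [show (1 + B) * (1 - B) = 1 - B * B by noncomm_ring, h, sub_zero]
  inv_val := by
    rw [show (1 - B) * (1 + B) = 1 - B * B by noncomm_ring, h, sub_zero]

/-- the elementary transvection -/
def tv (k l : n) (h : k ≠ l) (a : R) : (Matrix n n R)ˣ := onePlus (single k l a) (smz h.symm a a)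

lemma tv_val (k l : n) (h : k ≠ l) (a : R) : (tv k l h a : Matrix n n R) = 1 + single k l a := rfl

lemma tv_mem (k l : n) (h : k ≠ l) (a : R) : tv k l h a ∈ Elem n R :=
  Subgroup.subset_closure ⟨k, l, a, h, rfl⟩

/-- column operations: `1 + ∑ c_m e_mr` is elementary if `c_r = 0` -/
lemma col_mem (r : n) (c : n → R) (K : (Matrix n n R)ˣ) (S : Finset n) (hS : r ∉ S)
    (hK : (K : Matrix n n R) = 1 + ∑ m ∈ S, single m r (c m)) : K ∈ Elem n R := by
  classical
  induction S using Finset.induction_on generalizing K with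
  | empty =>
    rw [Finset.sum_empty, add_zero] at hK
    rw [show K = 1 from Units.ext hK]
    exact Subgroup.one_mem _
  | insert m S hm ih =>
    have hmr : m ≠ r := fun h => hS (h ▸ Finset.mem_insert_self _ _)
    have hS' : r ∉ S := fun h => hS (Finset.mem_insert_of_mem h)
    have h1 : ((tv m r hmr (-c m) * K : (Matrix n n R)ˣ) : Matrix n n R) =
        1 + ∑ m ∈ S, single m r (c m) := by
      rw [Units.val_mul, hK, tv_val, Finset.sum_insert hm, add_mul, one_mul, mul_add, mul_one,
        mul_add, Finset.mul_sum, smz hmr.symm,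
        Finset.sum_eq_zero (f := fun m' => single m r (-c m) * single m' r (c m'))
          (fun m' hm' => smz (fun h : r = m' => hS' (by rw [h]; exact hm')) _ _),
        add_zero, add_zero, ← single_neg]
      abel
    have h2 := ih (tv m r hmr (-c m) * K) hS' h1
    have h3 := Subgroup.mul_mem _ (Subgroup.inv_mem _ (tv_mem m r hmr (-c m))) h2
    rwa [inv_mul_cancel_left] at h3

/-- **The basic commutator.** -/
lemma basic (ξ : (Matrix n n R)ˣ) {j p r : n} (hjp : j ≠ p) (hjr : j ≠ r) (s z : R)
    (hz : (ξ : Matrix n n R) r j * z = 0) (hs : (ξ : Matrix n n R) r j * s = 0) :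
    PC (Elem n R) ξ 4 (tv j r hjr (s * (ξ : Matrix n n R) p j * z)) := by
  set X : Matrix n n R := (ξ : Matrix n n R) with hX
  set B : Matrix n n R := X * single j r z with hB
  have hBB : B * B = 0 := by
    rw [hB, show X * single j r z * (X * single j r z) = X * (single j r z * X * single j r z) by
      simp only [mul_assoc], single_mul_mul_single, mul_assoc z, hz, mul_zero, single_zero, mul_zero]
  let K : (Matrix n n R)ˣ := onePlus B hBB
  have hK : (K : Matrix n n R) = 1 + B := rfl
  set A : Matrix n n R := single j p s with hA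
  have hg : (tv j p hjp s : Matrix n n R) = 1 + A := rfl
  have hBA : B * A = 0 := by
    rw [hB, hA, mul_assoc, smz hjr.symm, mul_zero]
  have hKmem : K ∈ Elem n R := by
    refine col_mem r (fun m => X m j * z) K (Finset.univ.erase r) (Finset.notMem_erase _ _) ?_
    rw [hK]
    congr 1
    ext a b
    rw [Matrix.sum_apply]
    by_cases hb : b = r
    · subst hb
      rw [hB, mul_single_apply_same]
      by_cases ha : a = b
      · subst ha
        rw [hz]
        symm
        exact Finset.sum_eq_zero fun m hm => single_apply_of_row_ne (Finset.ne_of_mem_erase hm) _ _ _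
      · rw [Finset.sum_eq_single a (fun m _ hm => single_apply_of_row_ne hm _ _ _)
          (fun h => absurd (Finset.mem_erase.2 ⟨ha, Finset.mem_univ _⟩) h), single_apply_same]
    · rw [hB, mul_single_apply_of_ne (hbj := hb)]
      symm
      exact Finset.sum_eq_zero fun m _ => single_apply_of_col_ne _ _ (Ne.symm hb) _
  have hcomm : K * (ξ * tv j p hjp s * ξ⁻¹) = ξ * tv j p hjp s * ξ⁻¹ * K := by
    have h1 : ((ξ * tv j p hjp s * ξ⁻¹ : (Matrix n n R)ˣ) : Matrix n n R) =
        1 + X * A * ((ξ⁻¹ : (Matrix n n R)ˣ) : Matrix n n R) := by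
      rw [Units.val_mul, Units.val_mul, hg, mul_add, mul_one, add_mul, ← hX, hX, ← Units.val_mul,
        mul_inv_cancel, Units.val_one]
    have h2 : B * (X * A * ((ξ⁻¹ : (Matrix n n R)ˣ) : Matrix n n R)) = 0 := by
      rw [hB, hA, show X * single j r z * (X * single j p s * ((ξ⁻¹ : (Matrix n n R)ˣ) : Matrix n n R)) =
        X * (single j r z * X * single j p s) * ((ξ⁻¹ : (Matrix n n R)ˣ) : Matrix n n R) by
        simp only [mul_assoc], single_mul_mul_single, mul_assoc z, hs, mul_zero, single_zero, mul_zero,
        zero_mul]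
    have h3 : X * A * ((ξ⁻¹ : (Matrix n n R)ˣ) : Matrix n n R) * B = 0 := by
      rw [hB, hA, show X * single j p s * ((ξ⁻¹ : (Matrix n n R)ˣ) : Matrix n n R) * (X * single j r z) =
        X * single j p s * (((ξ⁻¹ : (Matrix n n R)ˣ) : Matrix n n R) * X) * single j r z by
        simp only [mul_assoc], hX, ← Units.val_mul, inv_mul_cancel, Units.val_one, mul_one, mul_assoc,
        smz hjp.symm, mul_zero]
    refine Units.ext ?_
    rw [Units.val_mul, Units.val_mul _ K, h1, hK]
    exact comm_of h2 h3
  have h4 := PC.four (tv_mem j p hjp s) hKmem hcomm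
  have e : tv j p hjp s * K * (tv j p hjp s)⁻¹ * K⁻¹ = tv j r hjr (s * X p j * z) := by
    rw [mul_inv_eq_iff_eq_mul, mul_inv_eq_iff_eq_mul]
    refine Units.ext ?_
    rw [Units.val_mul, Units.val_mul, Units.val_mul, hg, hK, tv_val]
    have hAB : A * B = single j r (s * X p j * z) := by
      rw [hA, hB, ← mul_assoc, single_mul_mul_single]
    have hCA : single j r (s * X p j * z) * A = 0 := by
      rw [hA, smz hjr.symm]
    have hCB : single j r (s * X p j * z) * B = 0 := by
      rw [hB, ← mul_assoc, single_mul_mul_single, mul_assoc (s * X p j * z), hz, mul_zero,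
        single_zero]
    exact comm_four hBA hAB hCA hCB
  rw [e] at h4
  exact h4

end Pool.Agent.Q21.RDU
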