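import Pool.Agent.Q21.RDU.Up

/-!
# The lower bound four: the field with seven elements
-/

set_option autoImplicit false

namespace Pool.Agent.Q21.RDU.Seven

open Matrix

abbrev F := ZMod 7
abbrev M := Matrix (Fin 3) (Fin 3) F

instance : Fact (Nat.Prime 7) := ⟨by norm_num⟩

/-- the companion matrix of `x³ - 3` -/
def sm : M := !![0, 0, 3; 1, 0, 0; 0, 1, 0]

def sm' : M := !![0, 1, 0; 0, 0, 1; 5, 0, 0]

lemma sm_mul : sm * sm' = 1 := by decide
lemma sm_mul' : sm' * sm = 1 := by decide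
lemma sm_cube : sm * sm * sm = 3 := by decide
lemma sm_tr : sm.trace = 0 := by decide
lemma sm_tr2 : (sm * sm).trace = 0 := by decide
lemma sm_det : sm.det = 3 := by
  rw [sm, det_fin_three]; decide
lemma sm_det' : sm'.det = 5 := by
  rw [sm', det_fin_three]; decide

def sg7 : Mˣ := ⟨sm, sm', sm_mul, sm_mul'⟩

lemma norm_form : ∀ c₀ c₁ c₂ : F, c₀ ^ 3 + 3 * c₁ ^ 3 + 9 * c₂ ^ 3 - 9 * c₀ * c₁ * c₂ = 0 →
    c₀ = 0 ∧ c₁ = 0 ∧ c₂ = 0 := by decide

/-- the vectors `e_k, B e_k, B² e_k` are independent if `B³ = 3` -/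
lemma dead (B : M) (hB : B * B * B = 3) {k l : Fin 3} (hkl : k ≠ l) (h1 : B l k = 0)
    (h2 : (B * B) l k = 0) : False := by
  let P : M := Matrix.of fun x c => ![(1 : M) x k, B x k, (B * B) x k] c
  have hP : P.det = 0 := by
    refine det_eq_zero_of_row_eq_zero l fun c => ?_
    show ![(1 : M) l k, B l k, (B * B) l k] c = 0
    rw [h1, h2, one_apply_ne hkl.symm]
    fin_cases c <;> rfl
  obtain ⟨c, hc, hPc⟩ := Matrix.exists_mulVec_eq_zero_iff.2 hP
  have E0 : ∀ x, (1 : M) x k * c 0 + B x k * c 1 + (B * B) x k * c 2 = 0 := by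
    intro x
    have := congrFun hPc x
    rw [mulVec, dotProduct, Fin.sum_univ_three] at this
    exact this
  have mulB : ∀ x, (B * B * B) x k = 3 * (1 : M) x k := by
    intro x
    rw [hB]
    show ((3 : M)) x k = 3 * (1 : M) x k
    have : (3 : M) = (3 : F) • (1 : M) := by decide
    rw [this, Matrix.smul_apply, smul_eq_mul]
  have step : ∀ X : M, ∀ x, (B * X) x k = ∑ z, B x z * X z k := fun X x => mul_apply
  have E1 : ∀ x, B x k * c 0 + (B * B) x k * c 1 + 3 * (1 : M) x k * c 2 = 0 := by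
    intro x
    have h3 : ∑ z, B x z * ((1 : M) z k * c 0 + B z k * c 1 + (B * B) z k * c 2) = 0 :=
      Finset.sum_eq_zero fun z _ => by rw [E0 z, mul_zero]
    have h4 : ∑ z, B x z * ((1 : M) z k * c 0 + B z k * c 1 + (B * B) z k * c 2) =
        (B * 1) x k * c 0 + (B * B) x k * c 1 + (B * (B * B)) x k * c 2 := by
      rw [step, step, step, Finset.sum_mul, Finset.sum_mul, Finset.sum_mul, ← Finset.sum_add_distrib,
        ← Finset.sum_add_distrib]
      exact Finset.sum_congr rfl fun z _ => by ring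
    rw [h4, mul_one, ← mul_assoc B B B, mulB] at h3
    exact h3
  have E2 : ∀ x, (B * B) x k * c 0 + 3 * (1 : M) x k * c 1 + 3 * B x k * c 2 = 0 := by
    intro x
    have h3 : ∑ z, B x z * (B z k * c 0 + (B * B) z k * c 1 + 3 * (1 : M) z k * c 2) = 0 :=
      Finset.sum_eq_zero fun z _ => by rw [E1 z, mul_zero]
    have h4 : ∑ z, B x z * (B z k * c 0 + (B * B) z k * c 1 + 3 * (1 : M) z k * c 2) =
        (B * B) x k * c 0 + (B * (B * B)) x k * c 1 + 3 * (B * 1) x k * c 2 := by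
      rw [step, step, step, Finset.mul_sum, Finset.sum_mul, Finset.sum_mul, Finset.sum_mul,
        ← Finset.sum_add_distrib, ← Finset.sum_add_distrib]
      exact Finset.sum_congr rfl fun z _ => by ring
    rw [h4, mul_one, ← mul_assoc B B B, mulB] at h3
    exact h3
  have e0 := E0 k
  have e1 := E1 k
  have e2 := E2 k
  rw [one_apply_eq] at e0 e1 e2
  have hn : c 0 ^ 3 + 3 * c 1 ^ 3 + 9 * c 2 ^ 3 - 9 * c 0 * c 1 * c 2 = 0 := by
    linear_combination (c 0 ^ 2 - 3 * c 1 * c 2) * e0 + (3 * c 2 ^ 2 - c 0 * c 1) * e1 +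
      (c 1 ^ 2 - c 0 * c 2) * e2
  obtain ⟨a0, a1, a2⟩ := norm_form _ _ _ hn
  refine hc ?_
  funext z
  fin_cases z
  · exact a0
  · exact a1
  · exact a2

lemma two_ne : (2 : F) ≠ 0 := by decide

/-- conjugates of `σ` -/
structure Cg (A : M) : Prop where
  cube : A * A * A = 3
  tr : A.trace = 0
  tr2 : (A * A).trace = 0

lemma cg_conj (τ : Mˣ) : Cg ((τ⁻¹ * sg7 * τ : Mˣ) : M) := by
  have h1 : ((τ⁻¹ : Mˣ) : M) * (τ : M) = 1 := by rw [← Units.val_mul, inv_mul_cancel, Units.val_one]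
  have h2 : (τ : M) * ((τ⁻¹ : Mˣ) : M) = 1 := by rw [← Units.val_mul, mul_inv_cancel, Units.val_one]
  have h3 : ((τ⁻¹ * sg7 * τ : Mˣ) : M) = ((τ⁻¹ : Mˣ) : M) * sm * (τ : M) := rfl
  set T : M := (τ : M)
  set T' : M := ((τ⁻¹ : Mˣ) : M)
  have h4 : T' * sm * T * (T' * sm * T) = T' * (sm * sm) * T := by
    calc T' * sm * T * (T' * sm * T) = T' * sm * (T * T') * sm * T := by simp only [mul_assoc]
      _ = T' * (sm * sm) * T := by rw [h2, mul_one]; simp only [mul_assoc]
  refine ⟨?_, ?_, ?_⟩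
  · rw [h3, h4]
    calc T' * (sm * sm) * T * (T' * sm * T) = T' * (sm * sm) * (T * T') * sm * T := by
          simp only [mul_assoc]
      _ = T' * (sm * sm * sm) * T := by rw [h2, mul_one]; simp only [mul_assoc]
      _ = 3 := by
        rw [sm_cube]
        have : (3 : M) = (3 : F) • (1 : M) := by decide
        rw [this, mul_smul_comm, mul_one, smul_mul_assoc, h1]
  · rw [h3, trace_mul_comm, ← mul_assoc, h2, one_mul, sm_tr]
  · rw [h3, h4, trace_mul_comm, ← mul_assoc, h2, one_mul, sm_tr2]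

lemma tr_single (X : M) (k l : Fin 3) : (single k l 1 * X).trace = X l k := by
  rw [trace, Finset.sum_eq_single k]
  · rw [diag_apply, single_mul_apply_same, one_mul]
  · intro m _ hm
    rw [diag_apply, single_mul_apply_of_ne (h := hm)]
  · exact fun h => absurd (Finset.mem_univ _) h

lemma key1 {A B : M} (hA : Cg A) (hB : Cg B) {k l : Fin 3} (hkl : k ≠ l)
    (h : (1 + single k l 1) * B = A) : False := by
  set N : M := single k l 1 with hN
  have e1 : B l k = 0 := by
    have := hA.tr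
    rw [← h, add_mul, one_mul, trace_add, hB.tr, zero_add, hN, tr_single] at this
    exact this
  have e2 : (B * B) l k = 0 := by
    have h2 := hA.tr2
    have e : A * A = B * B + N * (B * B) + B * N * B + N * B * N * B := by
      rw [← h]; noncomm_ring
    have e3 : N * B * N = 0 := by
      rw [hN, single_mul_mul_single, e1, mul_zero, zero_mul, single_zero]
    have e4 : (B * N * B).trace = (B * B) l k := by
      rw [mul_assoc, trace_mul_comm, mul_assoc, hN, tr_single]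
    rw [e, e3, zero_mul, add_zero, trace_add, trace_add, hB.tr2, zero_add, e4, hN, tr_single,
      ← two_mul] at h2
    exact (mul_eq_zero.1 h2).resolve_left two_ne
  exact dead B hB.cube hkl e1 e2

lemma key2 {A B : M} (hA : Cg A) (hB : Cg B) {k l : Fin 3} (hkl : k ≠ l)
    (h : A * (1 + single k l 1) = B) : False := by
  set N : M := single k l 1 with hN
  have e0 : ∀ X : M, (X * N).trace = X l k := fun X => by rw [trace_mul_comm, hN, tr_single]
  have e1 : A l k = 0 := by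
    have := hB.tr
    rw [← h, mul_add, mul_one, trace_add, hA.tr, zero_add, e0] at this
    exact this
  have e2 : (A * A) l k = 0 := by
    have h2 := hB.tr2
    have e : B * B = A * A + A * A * N + A * N * A + A * (N * A * N) := by
      rw [← h]; noncomm_ring
    have e3 : N * A * N = 0 := by
      rw [hN, single_mul_mul_single, e1, mul_zero, zero_mul, single_zero]
    have e4 : (A * N * A).trace = (A * A) l k := by
      rw [trace_mul_comm, ← mul_assoc, e0]
    rw [e, e3, mul_zero, add_zero, trace_add, trace_add, hA.tr2, zero_add, e4, e0, ← two_mul] at h2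
    exact (mul_eq_zero.1 h2).resolve_left two_ne
  exact dead A hA.cube hkl e1 e2

lemma det_tv (k l : Fin 3) (hkl : k ≠ l) : (1 + single k l (1 : F) : M).det = 1 :=
  Matrix.det_transvection_of_ne k l hkl 1

/-- the two kinds of factors -/
lemma kinds {E : Subgroup Mˣ} {y : Mˣ} (h : ∃ τ ∈ E, y = τ⁻¹ * sg7 * τ ∨ y = τ⁻¹ * sg7⁻¹ * τ) :
    (Cg (y : M) ∧ (y : M).det = 3) ∨ (Cg ((y⁻¹ : Mˣ) : M) ∧ (y : M).det = 5) := by
  obtain ⟨τ, -, h | h⟩ := h
  · left
    refine ⟨by rw [h]; exact cg_conj τ, ?_⟩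
    rw [h, Units.val_mul, Units.val_mul, det_mul, det_mul, mul_right_comm, ← det_mul,
      ← Units.val_mul, inv_mul_cancel, Units.val_one, det_one, one_mul]
    exact sm_det
  · right
    have e : y⁻¹ = τ⁻¹ * sg7 * τ := by rw [h]; group
    refine ⟨by rw [e]; exact cg_conj τ, ?_⟩
    rw [h, Units.val_mul, Units.val_mul, det_mul, det_mul, mul_right_comm, ← det_mul,
      ← Units.val_mul, inv_mul_cancel, Units.val_one, det_one, one_mul]
    exact sm_det'

/-- **At least four factors.** -/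
theorem low_7 (k l : Fin 3) (hkl : k ≠ l) (m : ℕ)
    (h : PC (Elem (Fin 3) F) sg7 m (tv k l hkl ((sg7 : M) 1 0))) : 4 ≤ m := by
  obtain ⟨L, hlen, hL, hprod⟩ := h
  have hs : (sg7 : M) 1 0 = 1 := rfl
  rw [hs] at hprod
  by_contra hcon
  have hlen' : L.length ≤ 3 := by omega
  have hdet : ((L.prod : Mˣ) : M).det = 1 := by
    rw [hprod]; exact det_tv k l hkl
  have d1 : (3 : F) ≠ 1 ∧ (5 : F) ≠ 1 ∧ (3 * 3 : F) ≠ 1 ∧ (5 * 5 : F) ≠ 1 := by decide
  have d3 : (3 * (3 * 3) : F) ≠ 1 ∧ (3 * (3 * 5) : F) ≠ 1 ∧ (3 * (5 * 3) : F) ≠ 1 ∧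
    (3 * (5 * 5) : F) ≠ 1 ∧ (5 * (3 * 3) : F) ≠ 1 ∧ (5 * (3 * 5) : F) ≠ 1 ∧
    (5 * (5 * 3) : F) ≠ 1 ∧ (5 * (5 * 5) : F) ≠ 1 := by decide
  rcases L with _ | ⟨x, _ | ⟨y, _ | ⟨z, _ | ⟨w, L⟩⟩⟩⟩
  · have h1 := congrArg (fun u : Mˣ => (u : M) k l) hprod
    simp only [List.prod_nil, Units.val_one, tv_val, Matrix.add_apply, single_apply_same,
      one_apply_ne hkl, zero_add] at h1
    exact zero_ne_one h1
  · rw [List.prod_singleton] at hdet
    rcases kinds (hL x (by simp)) with ⟨_, h⟩ | ⟨_, h⟩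
    · exact d1.1 (h.symm.trans hdet)
    · exact d1.2.1 (h.symm.trans hdet)
  · rw [List.prod_cons, List.prod_singleton] at hdet hprod
    rw [Units.val_mul, det_mul] at hdet
    rcases kinds (hL x (by simp)) with ⟨hx, h⟩ | ⟨hx, h⟩ <;>
      rcases kinds (hL y (by simp)) with ⟨hy, h'⟩ | ⟨hy, h'⟩
    · rw [h, h'] at hdet; exact d1.2.2.1 hdet
    · refine key1 hx hy hkl ?_
      have e : tv k l hkl 1 * y⁻¹ = x := by rw [← hprod, mul_inv_cancel_right]
      rw [← tv_val k l hkl, ← Units.val_mul, e]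
    · refine key2 hx hy hkl ?_
      have e : x⁻¹ * tv k l hkl 1 = y := by rw [← hprod, inv_mul_cancel_left]
      rw [← tv_val k l hkl, ← Units.val_mul, e]
    · rw [h, h'] at hdet; exact d1.2.2.2 hdet
  · rw [List.prod_cons, List.prod_cons, List.prod_singleton, Units.val_mul, Units.val_mul, det_mul,
      det_mul] at hdet
    obtain ⟨t1, t2, t3, t4, t5, t6, t7, t8⟩ := d3
    rcases kinds (hL x (by simp)) with ⟨_, h⟩ | ⟨_, h⟩ <;>
      rcases kinds (hL y (by simp)) with ⟨_, h'⟩ | ⟨_, h'⟩ <;>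
      rcases kinds (hL z (by simp)) with ⟨_, h''⟩ | ⟨_, h''⟩ <;>
      rw [h, h', h''] at hdet
    exacts [t1 hdet, t2 hdet, t3 hdet, t4 hdet, t5 hdet, t6 hdet, t7 hdet, t8 hdet]
  · simp only [List.length_cons] at hlen'
    omega

end Pool.Agent.Q21.RDU.Seven
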