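import Pool.Agent.Q21.RDU.Mat

/-!
# The upper bounds: four factors for regular entries, eight factors in general
-/

set_option autoImplicit false

namespace Pool.Agent.Q21.RDU

open Matrix

variable {n : Type*} [Fintype n] [DecidableEq n] {R : Type*} [Ring R]

section abs

variable {A : Type*} [Ring A] {u v e f : A}

lemma w1 (h1 : u * e = f) (h2 : v * e = 0) (h3 : v * f = -e) (h4 : u * f = 0) :
    (1 + u) * (1 + v) * (1 + u) * e = f := by
  have a1 : (1 + u) * (1 + v) * (1 + u) * e =
      (1 + u) * (e + v * e + u * e + v * (u * e)) := by noncomm_ring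
  rw [a1, h2, h1, h3, show e + 0 + f + -e = f by abel, add_mul, h4, one_mul, add_zero]

lemma w2 (h1 : u * f = 0) (h2 : v * f = 0) : (1 + u) * (1 + v) * (1 + u) * f = f := by
  have a1 : (1 + u) * (1 + v) * (1 + u) * f =
      (1 + u) * (f + v * f + u * f + v * (u * f)) := by noncomm_ring
  rw [a1, h2, h1, mul_zero, add_zero, add_zero, add_zero, add_mul, h1, one_mul, add_zero]

lemma w1' (h1 : e * u = f) (h2 : e * v = 0) (h3 : f * v = -e) (h4 : f * u = 0) :
    e * ((1 + u) * (1 + v) * (1 + u)) = f := by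
  have a1 : e * ((1 + u) * (1 + v) * (1 + u)) =
      (e + e * v + e * u + e * u * v) * (1 + u) := by noncomm_ring
  rw [a1, h2, h1, h3, show e + 0 + f + -e = f by abel, mul_add, h4, mul_one, add_zero]

lemma w2' (h1 : f * u = 0) (h2 : f * v = 0) : f * ((1 + u) * (1 + v) * (1 + u)) = f := by
  have a1 : f * ((1 + u) * (1 + v) * (1 + u)) =
      (f + f * v + f * u + f * u * v) * (1 + u) := by noncomm_ring
  rw [a1, h2, h1, zero_mul, add_zero, add_zero, add_zero, mul_add, h1, mul_one, add_zero]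

end abs

/-- conjugation which changes the row index -/
lemma weyl {k p l : n} (hkp : k ≠ p) (hkl : k ≠ l) (hpl : p ≠ l) (a b x : R) (h : b * a * x = x) :
    (tv k p hkp a * tv p k hkp.symm (-b) * tv k p hkp a) * tv p l hpl x *
      (tv k p hkp a * tv p k hkp.symm (-b) * tv k p hkp a)⁻¹ = tv k l hkl (a * x) := by
  rw [mul_inv_eq_iff_eq_mul]
  refine Units.ext ?_
  simp only [Units.val_mul, tv_val]
  set P : Matrix n n R := (1 + single k p a) * (1 + single p k (-b)) * (1 + single k p a) with hP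
  have h1 : P * single p l x = single k l (a * x) :=
    w1 (single_mul_single_same ..) (smz hkp _ _)
      (by rw [single_mul_single_same, neg_mul, ← mul_assoc, h, single_neg]) (smz hkp.symm _ _)
  have h2 : single k l (a * x) * P = single k l (a * x) := w2' (smz hkl.symm _ _) (smz hpl.symm _ _)
  rw [mul_add, mul_one, h1, add_mul, one_mul, h2]

/-- conjugation which changes the column index -/
lemma weyl' {j i l : n} (hji : j ≠ i) (hjl : j ≠ l) (hil : i ≠ l) (x : R) :
    (tv i l hil 1 * tv l i hil.symm (-1) * tv i l hil (1 : R))⁻¹ * tv j i hji x *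
      (tv i l hil 1 * tv l i hil.symm (-1) * tv i l hil 1) = tv j l hjl x := by
  rw [mul_assoc, inv_mul_eq_iff_eq_mul]
  refine Units.ext ?_
  simp only [Units.val_mul, tv_val]
  set P : Matrix n n R := (1 + single i l 1) * (1 + single l i (-1)) * (1 + single i l 1) with hP
  have h1 : single j i x * P = single j l x :=
    w1' (by rw [single_mul_single_same, mul_one]) (smz hil _ _)
      (by rw [single_mul_single_same, mul_neg, mul_one, single_neg]) (smz hil.symm _ _)
  have h2 : P * single j l x = single j l x := w2 (smz hjl.symm _ _) (smz hji.symm _ _)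
  rw [add_mul, one_mul, h1, mul_add, mul_one, h2]

/-- a relation between transvections: conjugate under `E_n(R)` -/
def Cj (x y : (Matrix n n R)ˣ) : Prop := ∃ h ∈ Elem n R, h * x * h⁻¹ = y

lemma Cj.trans {x y z : (Matrix n n R)ˣ} (h1 : Cj x y) (h2 : Cj y z) : Cj x z := by
  obtain ⟨g, hg, rfl⟩ := h1
  obtain ⟨h, hh, rfl⟩ := h2
  exact ⟨h * g, Subgroup.mul_mem _ hh hg, by group⟩

lemma Cj.refl (x : (Matrix n n R)ˣ) : Cj x x := ⟨1, Subgroup.one_mem _, by group⟩

lemma cj_row {k p l : n} (hkp : k ≠ p) (hkl : k ≠ l) (hpl : p ≠ l) (a b x : R) (h : b * a * x = x) :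
    Cj (tv p l hpl x) (tv k l hkl (a * x)) :=
  ⟨_, Subgroup.mul_mem _ (Subgroup.mul_mem _ (tv_mem _ _ _ _) (tv_mem _ _ _ _)) (tv_mem _ _ _ _),
    weyl hkp hkl hpl a b x h⟩

lemma cj_col {j i l : n} (hji : j ≠ i) (hjl : j ≠ l) (x : R) :
    Cj (tv j i hji x) (tv j l hjl x) := by
  by_cases hil : i = l
  · subst hil; exact Cj.refl _
  · refine ⟨(tv i l hil 1 * tv l i (Ne.symm hil) (-1) * tv i l hil (1 : R))⁻¹,
      Subgroup.inv_mem _ (Subgroup.mul_mem _ (Subgroup.mul_mem _ (tv_mem _ _ _ _) (tv_mem _ _ _ _))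
        (tv_mem _ _ _ _)), ?_⟩
    rw [inv_inv]
    exact weyl' hji hjl hil x

lemma exists_third (h3 : 3 ≤ Fintype.card n) (i j : n) : ∃ q : n, q ≠ i ∧ q ≠ j := by
  have h : ({i, j} : Finset n).card < Fintype.card n := lt_of_le_of_lt (Finset.card_le_two) h3
  obtain ⟨q, hq⟩ := Finset.exists_mem_notMem_of_card_lt_card
    (s := ({i, j} : Finset n)) (t := Finset.univ) (by rwa [Finset.card_univ])
  rw [Finset.mem_insert, Finset.mem_singleton, not_or] at hq
  exact ⟨q, hq.2⟩

/-- all the elementary transvections with entry `x` are conjugate -/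
lemma cj_all (h3 : 3 ≤ Fintype.card n) {j i k l : n} (hji : j ≠ i) (hkl : k ≠ l) (x : R) :
    Cj (tv j i hji x) (tv k l hkl x) := by
  by_cases hjk : j = k
  · subst hjk; exact cj_col _ _ x
  · obtain ⟨m, hmj, hmk⟩ := exists_third h3 j k
    have h1 : Cj (tv j i hji x) (tv j m hmj.symm x) := cj_col _ _ x
    have h2 : Cj (tv j m hmj.symm x) (tv k m hmk.symm (1 * x)) :=
      cj_row (Ne.symm hjk) hmk.symm hmj.symm 1 1 x (by rw [one_mul, one_mul])
    rw [one_mul] at h2
    exact h1.trans (h2.trans (cj_col _ _ x))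

lemma PC.cj {σ x y : (Matrix n n R)ˣ} {m : ℕ} (h : Cj x y) (hx : PC (Elem n R) σ m x) :
    PC (Elem n R) σ m y := by
  obtain ⟨g, hg, rfl⟩ := h
  exact hx.conj hg

/-- **The basic commutator**, second form. -/
lemma basic' (ξ : (Matrix n n R)ˣ) {j p r : n} (hjp : j ≠ p) (hjr : j ≠ r) (hpr : p ≠ r) (s z y : R)
    (hz : ((ξ : Matrix n n R) r j - y * (ξ : Matrix n n R) p j) * z = 0)
    (hs : ((ξ : Matrix n n R) r j - y * (ξ : Matrix n n R) p j) * s = 0) :
    PC (Elem n R) ξ 4 (tv j r hjr (s * (ξ : Matrix n n R) p j * z)) := by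
  set h : (Matrix n n R)ˣ := tv r p hpr.symm (-y) with hh
  have hinv : ((h⁻¹ : (Matrix n n R)ˣ) : Matrix n n R) = 1 - single r p (-y) := rfl
  have hval : (h : Matrix n n R) = 1 + single r p (-y) := rfl
  have hcol : ∀ m, ((h * ξ * h⁻¹ : (Matrix n n R)ˣ) : Matrix n n R) m j =
      ((h * ξ : (Matrix n n R)ˣ) : Matrix n n R) m j := by
    intro m
    rw [Units.val_mul _ h⁻¹, hinv, mul_sub, mul_one, Matrix.sub_apply, mul_single_apply_of_ne (hbj := hjp),
      sub_zero]
  have h1 : ((h * ξ * h⁻¹ : (Matrix n n R)ˣ) : Matrix n n R) r j =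
      (ξ : Matrix n n R) r j - y * (ξ : Matrix n n R) p j := by
    rw [hcol, Units.val_mul, hval, add_mul, one_mul, Matrix.add_apply, single_mul_apply_same, neg_mul,
      sub_eq_add_neg]
  have h2 : ((h * ξ * h⁻¹ : (Matrix n n R)ˣ) : Matrix n n R) p j = (ξ : Matrix n n R) p j := by
    rw [hcol, Units.val_mul, hval, add_mul, one_mul, Matrix.add_apply,
      single_mul_apply_of_ne (h := hpr), add_zero]
  have h3 := basic (h * ξ * h⁻¹) hjp hjr s z (by rw [h1]; exact hz) (by rw [h1]; exact hs)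
  rw [h2] at h3
  exact PC.of_conj (tv_mem _ _ _ _) h3

/-- **Four factors** if the entry is von Neumann regular. -/
theorem four_factors (h3 : 3 ≤ Fintype.card n) (σ : (Matrix n n R)ˣ) {i j k l : n} (hij : i ≠ j)
    (hkl : k ≠ l) (b : R) (hb : (σ : Matrix n n R) i j * b * (σ : Matrix n n R) i j =
      (σ : Matrix n n R) i j) :
    PC (Elem n R) σ 4 (tv k l hkl ((σ : Matrix n n R) i j)) := by
  obtain ⟨q, hqi, hqj⟩ := exists_third h3 i j
  set a := (σ : Matrix n n R) i j with ha
  set c := b * a * b with hc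
  have e1 : a * c * a = a := by rw [hc]; simp only [← mul_assoc]; rw [hb, hb]
  have e2 : c * a * c = c := by
    rw [hc]
    calc b * a * b * a * (b * a * b) = b * (a * b * a) * b * a * b := by simp only [mul_assoc]
      _ = b * a * b * a * b := by rw [hb]
      _ = b * (a * b * a) * b := by simp only [mul_assoc]
      _ = b * a * b := by rw [hb]
  have h1 := basic' σ hij.symm hqj.symm hqi.symm c (c * a) ((σ : Matrix n n R) q j * c)
    (by
      rw [← ha, sub_mul]
      have : (σ : Matrix n n R) q j * c * a * (c * a) = (σ : Matrix n n R) q j * (c * a * c * a) := by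
        simp only [mul_assoc]
      rw [this, e2, sub_self])
    (by
      rw [← ha, sub_mul]
      have : (σ : Matrix n n R) q j * c * a * c = (σ : Matrix n n R) q j * (c * a * c) := by
        simp only [mul_assoc]
      rw [this, e2, sub_self])
  rw [← ha, ← mul_assoc, e2] at h1
  obtain ⟨p, hpk, hpl⟩ := exists_third h3 k l
  have h2 : Cj (tv j q hqj.symm (c * a)) (tv p l hpl (c * a)) := cj_all h3 _ _ _
  have h4 : Cj (tv p l hpl (c * a)) (tv k l hkl (a * (c * a))) :=
    cj_row hpk.symm hkl hpl a c (c * a) (by rw [← mul_assoc, e2])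
  rw [← mul_assoc, e1] at h4
  exact PC.cj (h2.trans h4) h1

/-- **Eight factors**: if the column `j` can be killed by `α e_i - β e_j`, with `β z = a`. -/
theorem eight_aux (σ : (Matrix n n R)ˣ) {i j q : n} (hij : i ≠ j) (hqi : q ≠ i) (hqj : q ≠ j)
    (α β z : R) (h0 : α * (σ : Matrix n n R) i j = β * (σ : Matrix n n R) j j) :
    PC (Elem n R) σ 8 (tv j i hij.symm (β * z)) := by
  set τ : (Matrix n n R)ˣ := tv q i hqi α * tv q j hqj (-β) with hτ
  have hτm : τ ∈ Elem n R := Subgroup.mul_mem _ (tv_mem _ _ _ _) (tv_mem _ _ _ _)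
  have hτv : (τ : Matrix n n R) = 1 + single q i α + single q j (-β) := by
    rw [hτ, Units.val_mul, tv_val, tv_val, mul_add, mul_one, add_mul, one_mul, smz hqi.symm, add_zero]
  have hτi : ((τ⁻¹ : (Matrix n n R)ˣ) : Matrix n n R) = 1 - single q i α - single q j (-β) := by
    rw [hτ, _root_.mul_inv_rev, Units.val_mul,
      show (((tv q j hqj (-β))⁻¹ : (Matrix n n R)ˣ) : Matrix n n R) = 1 - single q j (-β) from rfl,
      show (((tv q i hqi α)⁻¹ : (Matrix n n R)ˣ) : Matrix n n R) = 1 - single q i α from rfl,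
      mul_sub, mul_one, sub_mul, one_mul, smz hqj.symm]
    abel
  set ξ : (Matrix n n R)ˣ := τ⁻¹ * σ⁻¹ * τ * σ with hξ
  have hcol : ∀ m, ((τ * σ : (Matrix n n R)ˣ) : Matrix n n R) m j = (σ : Matrix n n R) m j := by
    intro m
    rw [Units.val_mul, hτv, add_mul, add_mul, one_mul, Matrix.add_apply, Matrix.add_apply]
    by_cases hm : m = q
    · subst hm
      rw [single_mul_apply_same, single_mul_apply_same, h0, neg_mul, add_assoc, add_neg_cancel,
        add_zero]
    · rw [single_mul_apply_of_ne (h := hm), single_mul_apply_of_ne (h := hm), add_zero, add_zero]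
  have hξcol : ∀ m, (ξ : Matrix n n R) m j = ((τ⁻¹ : (Matrix n n R)ˣ) : Matrix n n R) m j := by
    intro m
    have e : ξ = (τ⁻¹ * σ⁻¹) * (τ * σ) := by rw [hξ]; group
    rw [e, Units.val_mul, mul_apply, Finset.sum_congr rfl (fun x _ => by rw [hcol x]), ← mul_apply,
      ← Units.val_mul, inv_mul_cancel_right]
  have h1 : (ξ : Matrix n n R) i j = 0 := by
    rw [hξcol, hτi, Matrix.sub_apply, Matrix.sub_apply, one_apply_ne hij, single_apply_of_row_ne hqi,
      single_apply_of_row_ne hqi, sub_zero, sub_zero]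
  have h2 : (ξ : Matrix n n R) q j = β := by
    rw [hξcol, hτi, Matrix.sub_apply, Matrix.sub_apply, one_apply_ne hqj, single_apply_of_col_ne _ _ hij,
      single_apply_same, sub_zero, zero_sub, neg_neg]
  have h3 := basic ξ hqj.symm hij.symm 1 z (by rw [h1, zero_mul]) (by rw [h1, zero_mul])
  rw [h2, one_mul] at h3
  have h4 := PC.trans (PC.two (σ := σ) hτm) h3
  exact h4

/-- **Eight factors over commutative rings.** -/
theorem eight_comm {S : Type*} [CommRing S] (h3 : 3 ≤ Fintype.card n) (σ : (Matrix n n S)ˣ)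
    {i j k l : n} (hij : i ≠ j) (hkl : k ≠ l) :
    PC (Elem n S) σ 8 (tv k l hkl ((σ : Matrix n n S) i j)) := by
  obtain ⟨q, hqi, hqj⟩ := exists_third h3 i j
  have h := eight_aux σ hij hqi hqj ((σ : Matrix n n S) j j) ((σ : Matrix n n S) i j) 1
    (mul_comm _ _)
  rw [mul_one] at h
  exact PC.cj (cj_all h3 _ _ _) h

/-- stable rank one -/
def StableRankOne (R : Type*) [Ring R] : Prop :=
  ∀ a b : R, (∃ x y : R, x * a + y * b = 1) → ∃ c : R, IsUnit (a + c * b)

/-- **Eight factors over rings of stable rank one.** -/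
theorem eight_sr (hR : StableRankOne R) (h3 : 3 ≤ Fintype.card n) (σ : (Matrix n n R)ˣ)
    {i j k l : n} (hij : i ≠ j) (hkl : k ≠ l) :
    PC (Elem n R) σ 8 (tv k l hkl ((σ : Matrix n n R) i j)) := by
  obtain ⟨q, hqi, hqj⟩ := exists_third h3 i j
  -- the column `j` is unimodular
  have h1 : ∑ p, ((σ⁻¹ : (Matrix n n R)ˣ) : Matrix n n R) j p * (σ : Matrix n n R) p j = 1 := by
    rw [← mul_apply, ← Units.val_mul, inv_mul_cancel, Units.val_one, one_apply_eq]
  set w : n → R := fun p => ((σ⁻¹ : (Matrix n n R)ˣ) : Matrix n n R) j p with hw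
  obtain ⟨c, hc⟩ := hR ((σ : Matrix n n R) j j)
    (∑ p ∈ Finset.univ.erase j, w p * (σ : Matrix n n R) p j) ⟨w j, 1, by
      rw [one_mul]
      exact (Finset.add_sum_erase _ (fun p => w p * (σ : Matrix n n R) p j)
        (Finset.mem_univ j)).trans h1⟩
  -- the row operation
  have key : ∀ S : Finset n, j ∉ S → ∃ h ∈ Elem n R, (h : Matrix n n R) =
      1 + ∑ p ∈ S, single j p (c * w p) := by
    intro S
    induction S using Finset.induction_on with
    | empty => intro _; exact ⟨1, Subgroup.one_mem _, by rw [Finset.sum_empty, add_zero]; rfl⟩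
    | insert m S hm ih =>
      intro hS
      have hjm : j ≠ m := fun h => hS (h ▸ Finset.mem_insert_self _ _)
      obtain ⟨h, hh, hv⟩ := ih fun h => hS (Finset.mem_insert_of_mem h)
      refine ⟨h * tv j m hjm (c * w m), Subgroup.mul_mem _ hh (tv_mem _ _ _ _), ?_⟩
      rw [Units.val_mul, hv, tv_val, mul_add, mul_one, add_mul, one_mul, Finset.sum_mul,
        Finset.sum_eq_zero (f := fun p => single j p (c * w p) * single j m (c * w m))
          (fun p hp => smz (fun e : p = j => hS (by
            rw [← e]; exact Finset.mem_insert_of_mem hp)) _ _), add_zero, Finset.sum_insert hm]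
      abel
  obtain ⟨h, hh, hv⟩ := key (Finset.univ.erase j) (Finset.notMem_erase _ _)
  set σ' : (Matrix n n R)ˣ := h * σ * h⁻¹ with hσ'
  have hhj : ∀ m, (h : Matrix n n R) m j = (1 : Matrix n n R) m j := by
    intro m
    rw [hv, Matrix.add_apply, Matrix.sum_apply, Finset.sum_eq_zero (fun p hp => single_apply_of_col_ne _ _
      (Finset.ne_of_mem_erase hp) _), add_zero]
  have hhij : ∀ m, ((h⁻¹ : (Matrix n n R)ˣ) : Matrix n n R) m j = (1 : Matrix n n R) m j := by
    intro m
    have e : ((h⁻¹ * h : (Matrix n n R)ˣ) : Matrix n n R) m j =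
        ((h⁻¹ : (Matrix n n R)ˣ) : Matrix n n R) m j := by
      rw [Units.val_mul, mul_apply, Finset.sum_congr rfl (fun x _ => by rw [hhj x]), ← mul_apply,
        mul_one]
    rw [← e, inv_mul_cancel, Units.val_one]
  have hcol : ∀ m, (σ' : Matrix n n R) m j = ((h * σ : (Matrix n n R)ˣ) : Matrix n n R) m j := by
    intro m
    rw [hσ', Units.val_mul, mul_apply, Finset.sum_congr rfl (fun x _ => by rw [hhij x]), ← mul_apply,
      mul_one]
  have hrow : ∀ m, m ≠ j → (σ' : Matrix n n R) m j = (σ : Matrix n n R) m j := by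
    intro m hm
    rw [hcol, Units.val_mul, hv, add_mul, one_mul, Matrix.add_apply, Finset.sum_mul, Matrix.sum_apply,
      Finset.sum_eq_zero (fun p _ => single_mul_apply_of_ne (h := hm) ..), add_zero]
  have hjj : (σ' : Matrix n n R) j j = (σ : Matrix n n R) j j +
      c * ∑ p ∈ Finset.univ.erase j, w p * (σ : Matrix n n R) p j := by
    rw [hcol, Units.val_mul, hv, add_mul, one_mul, Matrix.add_apply, Finset.sum_mul, Matrix.sum_apply,
      Finset.mul_sum]
    congr 1
    exact Finset.sum_congr rfl fun p _ => by rw [single_mul_apply_same, mul_assoc]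
  rw [← hjj] at hc
  obtain ⟨u, hu⟩ := hc
  have h4 := eight_aux σ' hij hqi hqj 1 ((σ' : Matrix n n R) i j * ((u⁻¹ : Rˣ) : R)) (u : R)
    (by rw [one_mul, ← hu, mul_assoc, Units.inv_mul, mul_one])
  rw [mul_assoc, Units.inv_mul, mul_one, hrow i hij] at h4
  exact PC.cj (cj_all h3 _ _ _) (PC.of_conj hh h4)

end Pool.Agent.Q21.RDU
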